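import Pool.Agent.H22.CK.F3
import Pool.Agent.H22.CK.F4

/-!
MP_52ca01_co, Q1: `r(K_{n,n}, C_{2k}, 3) ≥ c_k n`, `c_k = (3k-2)/(2(k-1)(2k-1))`, for all `k ≥ 4` and
all `n`.
-/

set_option autoImplicit false

namespace Pool.Agent.Results.MP_52ca01_co.LowerBoundAllK

/-- `c` is an `(H, q)`-colouring of `G` with `m` colours: an assignment of colours to the edges of `G`
in which every subgraph of `G` isomorphic to `H` has edges of at least `q` distinct colours. -/
def IsRamseyColouring {α β : Type} (G : SimpleGraph α) (H : SimpleGraph β) (q m : ℕ)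
    (c : G.edgeSet → Fin m) : Prop :=
  ∀ H' : G.Subgraph, Nonempty (H'.coe ≃g H) →
    q ≤ {i : Fin m | ∃ e : G.edgeSet, (e : Sym2 α) ∈ H'.edgeSet ∧ c e = i}.ncard

/-- The generalized Ramsey number `r(G, H, q)`: the least number of colours in an
`(H, q)`-colouring of `G`. -/
noncomputable def genRamsey {α β : Type} (G : SimpleGraph α) (H : SimpleGraph β) (q : ℕ) : ℕ :=
  sInf {m : ℕ | ∃ c : G.edgeSet → Fin m, IsRamseyColouring G H q m c}

/-- the edge between the left vertex `x` and the right vertex `y` of `K_{n,n}` -/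
def ebip {n : ℕ} (x y : Fin n) : (completeBipartiteGraph (Fin n) (Fin n)).edgeSet :=
  ⟨s(Sum.inl x, Sum.inr y), by simp [SimpleGraph.mem_edgeSet, completeBipartiteGraph]⟩

theorem no_two_coloured {n m k : ℕ} (hk : 2 ≤ k)
    (c : (completeBipartiteGraph (Fin n) (Fin n)).edgeSet → Fin m)
    (hc : IsRamseyColouring (completeBipartiteGraph (Fin n) (Fin n))
      (SimpleGraph.cycleGraph (2 * k)) 3 m c) (i j : Fin m) :
    ¬ H22CK.HasCycle k (fun x y => c (ebip x y) = i ∨ c (ebip x y) = j) := by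
  rintro ⟨p, q, hp, hq, h1, h2, h3⟩
  obtain ⟨f, hf⟩ := H22CK.copy_cycle hk p q hp hq
  have h := hc f.toSubgraph ⟨f.isoToSubgraph.symm⟩
  have hnx : ∀ l < k, c (ebip (p l) (q l)) = i ∨ c (ebip (p l) (q l)) = j := h1
  have hnx2 : ∀ l < k, c (ebip (p (H22CK.nx k l)) (q l)) = i ∨
      c (ebip (p (H22CK.nx k l)) (q l)) = j := by
    intro l hl
    unfold H22CK.nx
    split_ifs with he
    · have : l = k - 1 := by omega
      rw [this]; exact h3
    · exact h2 l (by omega)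
  have hsub : {a : Fin m | ∃ e : (completeBipartiteGraph (Fin n) (Fin n)).edgeSet,
      (e : Sym2 (Fin n ⊕ Fin n)) ∈ f.toSubgraph.edgeSet ∧ c e = a} ⊆ ({i, j} : Set (Fin m)) := by
    rintro a ⟨e, he, rfl⟩
    have he' : ∃ e0 ∈ (SimpleGraph.cycleGraph (2 * k)).edgeSet, Sym2.map f e0 = e.1 := by
      rw [SimpleGraph.Copy.toSubgraph, SimpleGraph.Subgraph.edgeSet_map] at he
      obtain ⟨e0, he0, he1⟩ := he
      exact ⟨e0, by simpa using he0, he1⟩
    obtain ⟨e0, he0, he1⟩ := he'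
    obtain ⟨l, hl, hor⟩ := hf e0 he0
    rcases hor with ho | ho
    · have : e = ebip (p l) (q l) := Subtype.ext (by rw [← he1, ho]; rfl)
      rw [this]; exact hnx l hl
    · have : e = ebip (p (H22CK.nx k l)) (q l) := Subtype.ext (by rw [← he1, ho]; rfl)
      rw [this]; exact hnx2 l hl
  have h4 : ({i, j} : Set (Fin m)).ncard ≤ 2 := by
    calc ({i, j} : Set (Fin m)).ncard ≤ ({j} : Set (Fin m)).ncard + 1 := Set.ncard_insert_le _ _
      _ = 2 := by rw [Set.ncard_singleton]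
  have h5 := Set.ncard_le_ncard hsub (Set.toFinite _)
  omega

theorem nonempty_set {n k : ℕ} (hk : 2 ≤ k) :
    {m : ℕ | ∃ c : (completeBipartiteGraph (Fin n) (Fin n)).edgeSet → Fin m,
      IsRamseyColouring (completeBipartiteGraph (Fin n) (Fin n))
        (SimpleGraph.cycleGraph (2 * k)) 3 m c}.Nonempty := by
  classical
  refine ⟨Fintype.card (completeBipartiteGraph (Fin n) (Fin n)).edgeSet,
    Fintype.equivFin _, ?_⟩
  rintro H' ⟨φ⟩
  set c := Fintype.equivFin (completeBipartiteGraph (Fin n) (Fin n)).edgeSet with hc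
  -- three edges of the cycle
  have hk4 : 4 ≤ 2 * k := by omega
  have hadj : ∀ a b : ℕ, (ha : a < 2 * k) → (hb : b < 2 * k) → b = a + 1 →
      (SimpleGraph.cycleGraph (2 * k)).Adj ⟨a, ha⟩ ⟨b, hb⟩ := by
    intro a b ha hb hab
    obtain ⟨l, hl⟩ : ∃ l, 2 * k = l + 2 := ⟨2 * k - 2, by omega⟩
    subst hab
    rw [SimpleGraph.cycleGraph_adj']
    right
    simp only [Fin.sub_def]
    have : 2 * k - a + (a + 1) = 1 + 2 * k := by omega
    rw [this, Nat.add_mod_right]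
    exact Nat.mod_eq_of_lt (by omega)
  have key : ∀ a b : ℕ, (ha : a < 2 * k) → (hb : b < 2 * k) → b = a + 1 →
      H'.Adj (φ.symm ⟨a, ha⟩) (φ.symm ⟨b, hb⟩) := by
    intro a b ha hb hab
    have := (φ.symm.map_adj_iff).2 (hadj a b ha hb hab)
    exact this
  have k1 := key 0 1 (by omega) (by omega) rfl
  have k2 := key 1 2 (by omega) (by omega) rfl
  have k3 := key 2 3 (by omega) (by omega) rfl
  have hne : ∀ a b : ℕ, (ha : a < 2 * k) → (hb : b < 2 * k) → a ≠ b →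
      ((φ.symm ⟨a, ha⟩ : H'.verts) : Fin n ⊕ Fin n) ≠ φ.symm ⟨b, hb⟩ := by
    intro a b ha hb hab h
    have := φ.symm.injective (Subtype.ext h)
    simp at this; exact hab this
  set v0 : Fin n ⊕ Fin n := ((φ.symm ⟨0, by omega⟩ : H'.verts) : Fin n ⊕ Fin n)
  set v1 : Fin n ⊕ Fin n := ((φ.symm ⟨1, by omega⟩ : H'.verts) : Fin n ⊕ Fin n)
  set v2 : Fin n ⊕ Fin n := ((φ.symm ⟨2, by omega⟩ : H'.verts) : Fin n ⊕ Fin n)
  set v3 : Fin n ⊕ Fin n := ((φ.symm ⟨3, by omega⟩ : H'.verts) : Fin n ⊕ Fin n)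
  have n01 : v0 ≠ v1 := hne 0 1 _ _ (by omega)
  have n02 : v0 ≠ v2 := hne 0 2 _ _ (by omega)
  have n03 : v0 ≠ v3 := hne 0 3 _ _ (by omega)
  have n12 : v1 ≠ v2 := hne 1 2 _ _ (by omega)
  have n13 : v1 ≠ v3 := hne 1 3 _ _ (by omega)
  have n23 : v2 ≠ v3 := hne 2 3 _ _ (by omega)
  have e1 : s(v0, v1) ∈ (completeBipartiteGraph (Fin n) (Fin n)).edgeSet := k1.adj_sub
  have e2 : s(v1, v2) ∈ (completeBipartiteGraph (Fin n) (Fin n)).edgeSet := k2.adj_sub
  have e3 : s(v2, v3) ∈ (completeBipartiteGraph (Fin n) (Fin n)).edgeSet := k3.adj_sub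
  have hss : (({c ⟨_, e1⟩, c ⟨_, e2⟩, c ⟨_, e3⟩} : Finset (Fin _)) : Set (Fin _)) ⊆
      {i | ∃ e : (completeBipartiteGraph (Fin n) (Fin n)).edgeSet,
        (e : Sym2 (Fin n ⊕ Fin n)) ∈ H'.edgeSet ∧ c e = i} := by
    intro i hi
    simp only [Finset.coe_insert, Finset.coe_singleton, Set.mem_insert_iff,
      Set.mem_singleton_iff] at hi
    rcases hi with rfl | rfl | rfl
    · exact ⟨⟨_, e1⟩, SimpleGraph.Subgraph.mem_edgeSet.2 k1, rfl⟩
    · exact ⟨⟨_, e2⟩, SimpleGraph.Subgraph.mem_edgeSet.2 k2, rfl⟩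
    · exact ⟨⟨_, e3⟩, SimpleGraph.Subgraph.mem_edgeSet.2 k3, rfl⟩
  have hcard : ({c ⟨_, e1⟩, c ⟨_, e2⟩, c ⟨_, e3⟩} : Finset (Fin _)).card = 3 := by
    rw [Finset.card_eq_three]
    refine ⟨_, _, _, ?_, ?_, ?_, rfl⟩
    · intro h
      have := congrArg Subtype.val (c.injective h)
      simp only [Sym2.eq_iff] at this
      tauto
    · intro h
      have := congrArg Subtype.val (c.injective h)
      simp only [Sym2.eq_iff] at this
      tauto
    · intro h
      have := congrArg Subtype.val (c.injective h)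
      simp only [Sym2.eq_iff] at this
      tauto
  have := Set.ncard_le_ncard hss (Set.toFinite _)
  rw [Set.ncard_coe_finset, hcard] at this
  exact this

/-- `r(K_{n,n}, C_{2k}, 3) ≥ (3k-2)/(2(k-1)(2k-1)) · n` for all `k ≥ 4` and all `n`. -/
theorem result (k : ℕ) (hk : 4 ≤ k) (n : ℕ) :
    (3 * (k : ℝ) - 2) / (2 * ((k : ℝ) - 1) * (2 * (k : ℝ) - 1)) * n ≤
      (genRamsey (completeBipartiteGraph (Fin n) (Fin n)) (SimpleGraph.cycleGraph (2 * k)) 3 : ℝ) := by
  obtain ⟨c, hc⟩ := Nat.sInf_mem (nonempty_set (n := n) (k := k) (by omega))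
  exact H22CK.bound hk (fun x y => c (ebip x y)) (fun i j => no_two_coloured (by omega) c hc i j)

end Pool.Agent.Results.MP_52ca01_co.LowerBoundAllK
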